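import Mathlib
import Pool.Agent.TH507.Defs

/-!
# Project GM (helper834): `gap_F(n) / n` converges for families of connected excluded minors
(MP_9d78a0_co).  `IsMinor H G` is `Pool.Agent.TH507.Host.IsMinor` (starting tree; file
Pool/Agent/TH507/Defs.lean, 40 lines, imports only Mathlib): branch sets `B : W → Set V`, each
`(G.induce (B x)).Connected`, pairwise disjoint, edges between adjacent ones.
In Pool/Agent/R34/Ident*.lean of the starting tree there is `minor_trans`.

PLAN. `M⁺` is superadditive and linear (Mader), so `M⁺/n` converges. `M⁻`: let `G` be edge-maximal on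
`n` vertices, `k` copies of `G` are `F`-free, let `Gs` be a maximal extension. Added edges run only
between different copies of one component `C` of `G`, `C` has no isomorphic twin in `G`, the end
points in one copy form a clique, and the quotient graph on the copies is an `F`-free graph on `k`
vertices. So `e(Gs) ≤ k e(G) + (number of components without twin) h² K k`, and that number is
`≤ T(s) + n / s`. Hence `M⁻(k n) ≤ k M⁻(n) + o(n) k`, and `M⁻(n+1) ≤ M⁻(n) + h`.
-/

set_option autoImplicit false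

namespace Run7.h834.GM

open SimpleGraph Filter Topology
open Pool.Agent.TH507.Host

/-- a graph on `Fin h` -/
abbrev Gr := Σ h : ℕ, SimpleGraph (Fin h)

/-- no member of `F` is a minor of `G` -/
def Free (F : Set Gr) {V : Type} (G : SimpleGraph V) : Prop := ∀ H ∈ F, ¬ IsMinor H.2 G

/-- edge-maximal `F`-free -/
def EdgeMax (F : Set Gr) {V : Type} (G : SimpleGraph V) : Prop :=
  Free F G ∧ ∀ u v, u ≠ v → ¬ G.Adj u v → ¬ Free F (G ⊔ SimpleGraph.edge u v)

/-- the set of the numbers of edges -/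
def EE (F : Set Gr) (n : ℕ) : Set ℕ :=
  {m | ∃ G : SimpleGraph (Fin n), EdgeMax F G ∧ G.edgeSet.ncard = m}

noncomputable def Mminus (F : Set Gr) (n : ℕ) : ℕ := sInf (EE F n)

noncomputable def Mplus (F : Set Gr) (n : ℕ) : ℕ := sSup (EE F n)

noncomputable def gap (F : Set Gr) (n : ℕ) : ℝ := (Mplus F n : ℝ) - Mminus F n

/-- the families of the theorem -/
def Good (F : Set Gr) : Prop := F.Nonempty ∧ ∀ H ∈ F, H.2.Connected ∧ H.2 ≠ ⊥

/-- `k` disjoint copies of `G` -/
def cop {V : Type} (G : SimpleGraph V) (k : ℕ) : SimpleGraph (V × Fin k) where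
  Adj p q := p.2 = q.2 ∧ G.Adj p.1 q.1
  symm := ⟨fun _ _ h => ⟨h.1.symm, h.2.symm⟩⟩
  loopless := ⟨fun p h => G.loopless.irrefl p.1 h.2⟩

/-- the component of `x` has a second isomorphic copy among the components of `G` -/
def Twin {V : Type} (G : SimpleGraph V) (x : V) : Prop :=
  ∃ z, ¬ G.Reachable x z ∧
    Nonempty (G.induce {w | G.Reachable x w} ≃g G.induce {w | G.Reachable z w})

/-- the number of components without twin -/
noncomputable def uniq {V : Type} (G : SimpleGraph V) : ℕ :=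
  {c : G.ConnectedComponent | ∃ x, G.connectedComponentMk x = c ∧ ¬ Twin G x}.ncard

/-- copies of the component of `x0` joined in `Gs` -/
def Quo {V : Type} (G : SimpleGraph V) {k : ℕ} (Gs : SimpleGraph (V × Fin k)) (x0 : V) :
    SimpleGraph (Fin k) where
  Adj a b := a ≠ b ∧ ∃ x y, G.Reachable x0 x ∧ G.Reachable x0 y ∧ Gs.Adj (x, a) (y, b)
  symm := ⟨fun _ _ ⟨h, x, y, hx, hy, e⟩ => ⟨h.symm, y, x, hy, hx, e.symm⟩⟩
  loopless := ⟨fun _ h => h.1 rfl⟩

/-- linear bound with constant `K` -/
def Lin (F : Set Gr) (K : ℕ) : Prop :=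
  ∀ (V : Type) [Fintype V] (G : SimpleGraph V), Free F G → G.edgeSet.ncard ≤ K * Fintype.card V

/-- clique bound -/
def Clq (F : Set Gr) (h : ℕ) : Prop :=
  ∀ (V : Type) (G : SimpleGraph V), Free F G → ∀ S : Finset V, G.IsClique (S : Set V) → S.card ≤ h

/-- MAD (30 lines). From `Pool.Agent.R34.FH.force` (Pool/Agent/R34/FH/Core.lean in the starting tree)
with constant weights `w x = W` (`h (4/5)^(W*W) ≤ 1/4`); `pr G = 2 * ncard`. -/
def S_MAD : Prop := ∀ F : Set Gr, F.Nonempty → ∃ K, Lin F K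

/-- CLQ (30 lines). `H ∈ F` on `Fin h`: a clique with `h` vertices contains `H` as a subgraph (singleton
branch sets). -/
def S_CLQ : Prop := ∀ F : Set Gr, F.Nonempty → ∃ h, Clq F h

/-- EXT (30 lines). Finite induction / maximal element (`Finite.exists_maximal`-like); a subgraph of a
graph without minor has none. -/
def S_EXT : Prop := ∀ (F : Set Gr) (V : Type) [Fintype V] (G : SimpleGraph V), Free F G →
  ∃ G', G ≤ G' ∧ EdgeMax F G'

/-- TRF (20 lines). Transport along `Fintype.equivFin V`. -/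
def S_TRF : Prop := ∀ (F : Set Gr) (V : Type) [Fintype V] (G : SimpleGraph V), EdgeMax F G →
  ∃ G' : SimpleGraph (Fin (Fintype.card V)), EdgeMax F G' ∧ G'.edgeSet.ncard = G.edgeSet.ncard

/-- COPY (50 lines). A branch set is connected in `cop G k`, so it lies in one copy; adjacent vertices of
`H` have the same copy, `H` is connected: all in one copy `a`; project. -/
def S_COPY : Prop := ∀ (F : Set Gr), Good F → ∀ (V : Type) (G : SimpleGraph V) (k : ℕ),
  Free F G → Free F (cop G k)

/-- SUMF (60 lines). Disjoint union (`G₁ ⊕g G₂`, transported to `Fin (n + m)`); same argument as COPY. -/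
def S_SUMF : Prop := ∀ (F : Set Gr), Good F → ∀ (n m : ℕ) (G₁ : SimpleGraph (Fin n))
  (G₂ : SimpleGraph (Fin m)), Free F G₁ → Free F G₂ → ∃ G : SimpleGraph (Fin (n + m)), Free F G ∧
    G.edgeSet.ncard = G₁.edgeSet.ncard + G₂.edgeSet.ncard

/-- SAME (30 lines). If `x, y` are not adjacent in `G` (and `x ≠ y` as `Gs` is loopless), `G ⊔ edge x y`
embeds in `Gs` by `z ↦ (z, a)`. -/
def S_SAME : Prop := ∀ (F : Set Gr) (V : Type) (G : SimpleGraph V) (k : ℕ)
  (Gs : SimpleGraph (V × Fin k)), EdgeMax F G → cop G k ≤ Gs → Free F Gs →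
  ∀ x y a, Gs.Adj (x, a) (y, a) → G.Adj x y

/-- DIFF (40 lines). If `y` is not reachable from `x` in `G`, `G ⊔ edge x y` embeds in `Gs` by
`z ↦ (z, b)` if `G.Reachable y z`, `z ↦ (z, a)` otherwise (no edge of `G` leaves a component). -/
def S_DIFF : Prop := ∀ (F : Set Gr) (V : Type) (G : SimpleGraph V) (k : ℕ)
  (Gs : SimpleGraph (V × Fin k)), EdgeMax F G → cop G k ≤ Gs → Free F Gs →
  ∀ x y a b, Gs.Adj (x, a) (y, b) → G.Reachable x y

/-- TWN (60 lines), `a ≠ b`. Let the component `D` of `z` be another one, isomorphic to the component `C`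
of `x` by `ψ : C ≃ D`. By DIFF (hypothesis `G.Reachable x y`) `y ∈ C`; let `y' = ψ y ∈ D`. `x, y'` are in
different components, so not adjacent; `G ⊔ edge x y'` embeds in `Gs` by `w ↦ (ψ⁻¹ w, b)` for `w ∈ D` and
`w ↦ (w, a)` otherwise (injective because `a ≠ b`). -/
def S_TWN : Prop := ∀ (F : Set Gr) (V : Type) (G : SimpleGraph V) (k : ℕ)
  (Gs : SimpleGraph (V × Fin k)), EdgeMax F G → cop G k ≤ Gs → Free F Gs →
  ∀ x y a b, a ≠ b → G.Reachable x y → Gs.Adj (x, a) (y, b) → ¬ Twin G x

/-- CLI (60 lines). If `x ≠ x'` are not adjacent, `G ⊔ edge x x'` is a minor of `Gs`: branch sets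
`{(z, a)}` for `z ≠ x` and `{(x, a)} ∪ {(w, b) | G.Reachable y w}` for `x`; then use that minors compose
(or compose by hand: replace a branch set `B h` of `H` in `G ⊔ edge x x'` by the union of these sets). -/
def S_CLI : Prop := ∀ (F : Set Gr) (V : Type) (G : SimpleGraph V) (k : ℕ)
  (Gs : SimpleGraph (V × Fin k)), EdgeMax F G → cop G k ≤ Gs → Free F Gs →
  ∀ x y x' y' a b, a ≠ b → G.Reachable y y' → Gs.Adj (x, a) (y, b) → Gs.Adj (x', a) (y', b) →
    x = x' ∨ G.Adj x x'

/-- QUO (40 lines). `Quo G Gs x0` is a minor of `Gs`: branch sets `{(w, a) | G.Reachable x0 w}`. Compose. -/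
def S_QUO : Prop := ∀ (F : Set Gr) (V : Type) (G : SimpleGraph V) (k : ℕ)
  (Gs : SimpleGraph (V × Fin k)), cop G k ≤ Gs → Free F Gs → ∀ x0, Free F (Quo G Gs x0)

/-- TOT (100 lines), counting. Ordered pairs `(p, q)` with `Gs.Adj p q` (twice the number of edges): those
with `p.2 = q.2` are the pairs `((x,a),(y,a))`, `G.Adj x y` (SAME), `k * 2 e(G)` of them. For the others:
`x, y` are in one component `c` (DIFF), without twin (TWN), `(a, b)` is an adjacent pair of `Quo G Gs x0`
(`x0` a representative of `c`): at most `2 K k` pairs (QUO, `Lin`); for fixed `c, a, b` the possible `x` form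
a clique (CLI), at most `h`, the same for `y` (CLI with the roles exchanged): at most `h * h` pairs. -/
def S_TOT : Prop := ∀ (F : Set Gr) (K h : ℕ), Lin F K → Clq F h →
  ∀ (V : Type) [Fintype V] (G : SimpleGraph V) (k : ℕ) (Gs : SimpleGraph (V × Fin k)),
    EdgeMax F G → cop G k ≤ Gs → Free F Gs →
    Gs.edgeSet.ncard ≤ k * G.edgeSet.ncard + uniq G * (h * h * K * k)

/-- UNI (60 lines). Components without twin with at most `s` vertices: map each to `⟨t, a graph on Fin t
isomorphic to it⟩`, injective; `T` = number of `Σ t : Fin (s+1), SimpleGraph (Fin t)`. The larger ones have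
more than `s` vertices each: at most `card V / s`. -/
def S_UNI : Prop := ∀ s : ℕ, ∃ T : ℕ, ∀ (V : Type) [Fintype V] (G : SimpleGraph V),
  s * uniq G ≤ s * T + Fintype.card V

/-- ONE (80 lines). Let `G` be edge-maximal on `n` vertices; add an isolated vertex `z` (the graph is
`F`-free: members of `F` are connected with an edge), take a maximal extension `G'` (EXT). An edge `x y`
of `G'` with `x, y ≠ z` is in `G` (SAME-like). The neighbours of `z` form a clique in `G`: if `x ≠ x'` are
neighbours of `z` and not adjacent in `G` then `G ⊔ edge x x'` is a minor of `G'` (contract `z` to `x`). So at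
most `h` new edges. -/
def S_ONE : Prop := ∀ (F : Set Gr) (h : ℕ), Good F → Clq F h → ∀ (n : ℕ) (G : SimpleGraph (Fin n)),
  EdgeMax F G → ∃ G' : SimpleGraph (Fin (n + 1)), EdgeMax F G' ∧
    G'.edgeSet.ncard ≤ G.edgeSet.ncard + h

/-- LIM (60 lines), real analysis. `m (k n + r) ≤ m (k n) + A r`. With `L = liminf (m n / n)`: for `ε > 0`
take `n ≥ n1` with `m n / n ≤ L + ε`; then `m N / N ≤ L + 2 ε + A n / N + ..` for `N = k n + r`. -/
def S_LIM : Prop := ∀ (m : ℕ → ℕ) (A : ℕ), (∀ n, m (n + 1) ≤ m n + A) →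
  (∀ ε : ℝ, 0 < ε → ∃ n1 : ℕ, ∀ n ≥ n1, ∀ k : ℕ, 1 ≤ k →
    (m (k * n) : ℝ) ≤ k * m n + ε * k * n) →
  ∃ L : ℝ, Tendsto (fun n : ℕ => (m n : ℝ) / n) atTop (𝓝 L)

/-- FEK (20 lines). Fekete: Mathlib `Subadditive.tendsto_lim` for `- M`. -/
def S_FEK : Prop := ∀ (M : ℕ → ℕ) (K : ℕ), (∀ n, M n ≤ K * n) → (∀ m n, M m + M n ≤ M (m + n)) →
  ∃ L : ℝ, Tendsto (fun n : ℕ => (M n : ℝ) / n) atTop (𝓝 L)

/-- the theorem (assembly by helper834) -/
def S_MAIN : Prop := ∀ F : Set Gr, Good F →
  ∃ L : ℝ, Tendsto (fun n : ℕ => gap F n / n) atTop (𝓝 L)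

end Run7.h834.GM
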