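import Pool.Agent.Run7.h834.GM.Iface
import Pool.Agent.R34.FH.Core

set_option autoImplicit false

namespace Run7.h834.GM

open SimpleGraph Filter Topology
open Pool.Agent.TH507.Host

theorem pr_eq_two {V : Type} [Fintype V] (G : SimpleGraph V) :
    Pool.Agent.R34.FH.pr G = 2 * G.edgeSet.ncard := by
  classical
  have h1 : Pool.Agent.R34.FH.pr G = ∑ v, G.degree v := by
    rw [Pool.Agent.R34.FH.pr_eq]
    refine Finset.sum_congr rfl fun v _ => ?_
    rw [← SimpleGraph.card_neighborFinset_eq_degree]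
    congr 1
    ext y
    rw [Pool.Agent.R34.FH.mem_nb, SimpleGraph.mem_neighborFinset]
  rw [h1, SimpleGraph.sum_degrees_eq_twice_card_edges, ← SimpleGraph.coe_edgeFinset,
    Set.ncard_coe_finset]

theorem t_MAD : S_MAD := by
  intro F ⟨H, hH⟩
  obtain ⟨W, hW3, hW⟩ : ∃ W : ℕ, 3 ≤ W ∧ (H.1 : ℝ) * (4 / 5 : ℝ) ^ W ≤ 1 / 4 := by
    have h1 : Tendsto (fun n : ℕ => (H.1 : ℝ) * (4 / 5 : ℝ) ^ n) atTop (𝓝 ((H.1 : ℝ) * 0)) :=
      (tendsto_pow_atTop_nhds_zero_of_lt_one (by norm_num) (by norm_num)).const_mul _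
    rw [mul_zero] at h1
    have h2 := (h1.eventually (gt_mem_nhds (show (0 : ℝ) < 1 / 4 by norm_num))).and
      (eventually_ge_atTop 3)
    obtain ⟨W, h3, h4⟩ := h2.exists
    exact ⟨W, h4, h3.le⟩
  refine ⟨600 * (H.1 * W), fun V _ G hG => ?_⟩
  by_contra hcon
  push Not at hcon
  have hV : 0 < Fintype.card V := by
    rw [Fintype.card_pos_iff]
    by_contra hemp
    rw [not_nonempty_iff] at hemp
    have : G.edgeSet.ncard = 0 := by
      rw [Set.ncard_eq_zero (Set.toFinite _), Set.eq_empty_iff_forall_notMem]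
      intro q
      induction q using Sym2.ind with
      | _ u v => exact hemp.elim u
    omega
  refine hG H hH (Pool.Agent.R34.FH.force H.2 (fun _ => W) (fun _ => hW3) ?_ G hV ?_)
  · intro x
    have hpow : ((4 / 5 : ℝ) ^ W) ^ W ≤ (4 / 5 : ℝ) ^ W := by
      rw [← pow_mul]
      exact pow_le_pow_of_le_one (by norm_num) (by norm_num) (by nlinarith)
    rw [Finset.sum_const, nsmul_eq_mul]
    refine le_trans (mul_le_mul ?_ hpow (by positivity) (by positivity)) hW
    refine Nat.cast_le.2 ((Finset.card_le_univ _).trans ?_)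
    rw [Fintype.card_fin]
  · rw [pr_eq_two]
    have : ∑ _x : Fin H.1, W = H.1 * W := by simp
    rw [this]
    omega

end Run7.h834.GM
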