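import Pool.Agent.Run7.h834.GM.Basic

set_option autoImplicit false

namespace Run7.h834.GM

open SimpleGraph Filter Topology
open Pool.Agent.TH507.Host

theorem exists_nbr {W : Type} {H : SimpleGraph W} (hc : H.Connected) (hne : H ≠ ⊥) (x : W) :
    ∃ y, H.Adj x y := by
  obtain ⟨a, b, hab⟩ : ∃ a b, H.Adj a b := by
    by_contra hcon
    push Not at hcon
    apply hne
    ext x y
    simp [hcon x y]
  by_cases hxa : x = a
  · exact ⟨b, hxa ▸ hab⟩
  · obtain ⟨w⟩ := hc.preconnected x a
    cases w with
    | nil => exact absurd rfl hxa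
    | cons h p => exact ⟨_, h⟩

/-- an isolated vertex does not help -/
theorem iso_vertex {W V : Type} {H : SimpleGraph W} (hc : H.Connected) (hne : H ≠ ⊥)
    (G : SimpleGraph V) (hm : IsMinor H (G.map (Function.Embedding.some (α := V)))) :
    IsMinor H G := by
  obtain ⟨B, h1, h2, h3⟩ := hm
  have hz : ∀ x, none ∉ B x := by
    intro x hx
    obtain ⟨y, hxy⟩ := exists_nbr hc hne x
    obtain ⟨u, hu, v, hv, huv⟩ := h3 x y hxy
    rw [SimpleGraph.map_adj] at huv
    obtain ⟨i, j, hij, rfl, rfl⟩ := huv
    obtain ⟨w⟩ := (h1 x).preconnected ⟨none, hx⟩ ⟨_, hu⟩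
    cases w with
    | cons h p =>
      have h' : (G.map (Function.Embedding.some (α := V))).Adj none _ := h
      rw [SimpleGraph.map_adj] at h'
      obtain ⟨a, b, _, ha, _⟩ := h'
      exact absurd ha (by simp)
  refine ⟨fun x => {i | some i ∈ B x}, ?_, ?_, ?_⟩
  · intro x
    let e : (G.induce {i | some i ∈ B x}) ≃g
        ((G.map (Function.Embedding.some (α := V))).induce (B x)) :=
      { toEquiv := Equiv.ofBijective (fun i => ⟨some i.1, i.2⟩) (by
          constructor
          · intro i j h
            have := congrArg Subtype.val h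
            exact Subtype.ext (Option.some_injective _ this)
          · rintro ⟨u, hu⟩
            cases u with
            | none => exact absurd hu (hz x)
            | some i => exact ⟨⟨i, hu⟩, rfl⟩)
        map_rel_iff' := by
          intro a b
          exact SimpleGraph.map_adj_apply (f := Function.Embedding.some) }
    exact e.connected_iff.2 (h1 x)
  · intro x y hxy
    rw [Set.disjoint_left]
    intro i hi hj
    exact Set.disjoint_left.1 (h2 x y hxy) hi hj
  · intro x y hxy
    obtain ⟨u, hu, v, hv, huv⟩ := h3 x y hxy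
    rw [SimpleGraph.map_adj] at huv
    obtain ⟨i, j, hij, rfl, rfl⟩ := huv
    exact ⟨i, hu, j, hv, hij⟩

open Classical in
theorem t_ONE (hEXT : S_EXT) (hTRF : S_TRF) : S_ONE := by
  intro F h hF hh n G hG
  have hfree : Free F (G.map (Function.Embedding.some (α := Fin n))) := fun H hH hm =>
    hG.1 H hH (iso_vertex (hF.2 H hH).1 (hF.2 H hH).2 G hm)
  obtain ⟨G', hle, hG'⟩ := hEXT F (Option (Fin n)) _ hfree
  have hGG' : ∀ i j, G.Adj i j → G'.Adj (some i) (some j) := fun i j hij =>
    hle ((SimpleGraph.map_adj_apply (f := Function.Embedding.some)).2 hij)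
  have hsame : ∀ i j, G'.Adj (some i) (some j) → G.Adj i j := by
    intro i j hij
    by_contra hn
    have hne : i ≠ j := fun e => by subst e; exact G'.loopless.irrefl _ hij
    refine hG.2 i j hne hn (hG'.1.of_emb some (Option.some_injective _) ?_)
    intro u v huv
    rcases adj_sup_edge huv with h | ⟨rfl, rfl⟩ | ⟨rfl, rfl⟩
    · exact hGG' _ _ h
    · exact hij
    · exact hij.symm
  let N : Finset (Fin n) := Finset.univ.filter fun i => G'.Adj none (some i)
  have hN : ∀ i, i ∈ N ↔ G'.Adj none (some i) := fun i => by simp [N]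
  have hcl : G.IsClique (N : Set (Fin n)) := by
    intro i hi j hj hne
    by_contra hn
    have hi' := (hN i).1 hi
    have hj' := (hN j).1 hj
    refine hG.2 i j hne hn (hG'.1.of_minor ?_)
    refine ⟨fun w => {u | u = some w ∨ (w = i ∧ u = none)}, ?_, ?_, ?_⟩
    · intro w
      rw [connected_iff_exists_forall_reachable]
      refine ⟨⟨some w, Or.inl rfl⟩, ?_⟩
      rintro ⟨u, rfl | ⟨rfl, rfl⟩⟩
      · exact Reachable.refl _
      · have : (G'.induce {u | u = some w ∨ (w = w ∧ u = none)}).Adj
            ⟨some w, Or.inl rfl⟩ ⟨none, Or.inr ⟨rfl, rfl⟩⟩ := hi'.symm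
        exact this.reachable
    · intro x y hxy
      rw [Set.disjoint_left]
      rintro u (rfl | ⟨rfl, rfl⟩) (hu | ⟨hu, hu'⟩)
      · exact hxy (Option.some_injective _ hu)
      · exact absurd hu' (by simp)
      · exact absurd hu (by simp)
      · exact hxy hu.symm
    · intro x y hxy
      rcases adj_sup_edge hxy with h | ⟨rfl, rfl⟩ | ⟨rfl, rfl⟩
      · exact ⟨some x, Or.inl rfl, some y, Or.inl rfl, hGG' _ _ h⟩
      · exact ⟨none, Or.inr ⟨rfl, rfl⟩, some y, Or.inl rfl, hj'⟩
      · exact ⟨some x, Or.inl rfl, none, Or.inr ⟨rfl, rfl⟩, hj'.symm⟩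
  have hNh : N.card ≤ h := hh (Fin n) G hG.1 N hcl
  obtain ⟨G'', hG'', e⟩ := hTRF F (Option (Fin n)) G' hG'
  have hc : Fintype.card (Option (Fin n)) = n + 1 := by simp
  have hcount : G'.edgeSet.ncard ≤ G.edgeSet.ncard + h := by
    have hsub : G'.edgeSet ⊆ (Sym2.map some '' G.edgeSet) ∪
        ((fun i : Fin n => s(none, some i)) '' (N : Set (Fin n))) := by
      intro q
      induction q using Sym2.ind with
      | _ u v =>
        intro huv
        rw [SimpleGraph.mem_edgeSet] at huv
        rcases u with _ | i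
        · rcases v with _ | j
          · exact absurd huv (G'.loopless.irrefl _)
          · exact Or.inr ⟨j, (hN j).2 huv, rfl⟩
        · rcases v with _ | j
          · exact Or.inr ⟨i, (hN i).2 huv.symm, Sym2.eq_swap⟩
          · exact Or.inl ⟨s(i, j), hsame i j huv, rfl⟩
    calc G'.edgeSet.ncard ≤ _ := Set.ncard_le_ncard hsub (Set.toFinite _)
      _ ≤ _ := Set.ncard_union_le _ _
      _ ≤ G.edgeSet.ncard + h := by
        apply Nat.add_le_add
        · exact Set.ncard_image_le (Set.toFinite _)
        · refine (Set.ncard_image_le (Set.toFinite _)).trans ?_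
          rw [Set.ncard_coe_finset]
          exact hNh
  rw [← e] at hcount
  revert G''
  rw [hc]
  intro G'' hG'' e hcount
  exact ⟨G'', hG'', hcount⟩

end Run7.h834.GM
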