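import Pool.Agent.Run7.h834.GM.Basic

set_option autoImplicit false

namespace Run7.h834.GM

open SimpleGraph Filter Topology
open Pool.Agent.TH507.Host

theorem t_SAME : S_SAME := by
  intro F V G k Gs hG hle hfree x y a hxy
  by_contra hn
  have hne : x ≠ y := fun h => by subst h; exact Gs.loopless.irrefl _ hxy
  refine hG.2 x y hne hn (hfree.of_emb (fun z => (z, a)) (fun z w h => by simpa using h) ?_)
  intro u v huv
  rcases adj_sup_edge huv with h | ⟨rfl, rfl⟩ | ⟨rfl, rfl⟩
  · exact hle ⟨rfl, h⟩
  · exact hxy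
  · exact hxy.symm

open Classical in
theorem t_DIFF : S_DIFF := by
  intro F V G k Gs hG hle hfree x y a b hxy
  by_contra hn
  have hne : x ≠ y := fun h => hn (h ▸ SimpleGraph.Reachable.refl _)
  have hna : ¬ G.Adj x y := fun h => hn h.reachable
  refine hG.2 x y hne hna (hfree.of_emb
    (fun z => (z, if G.Reachable y z then b else a)) (fun z w h => (Prod.mk.inj h).1) ?_)
  have hx : ¬ G.Reachable y x := fun h => hn h.symm
  intro u v huv
  rcases adj_sup_edge huv with h | ⟨rfl, rfl⟩ | ⟨rfl, rfl⟩
  · have : G.Reachable y u ↔ G.Reachable y v :=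
      ⟨fun h1 => h1.trans h.reachable, fun h1 => h1.trans h.symm.reachable⟩
    refine hle ⟨?_, h⟩
    simp only [this]
  · simp only [hx, SimpleGraph.Reachable.refl, if_true, if_false]
    exact hxy
  · simp only [hx, SimpleGraph.Reachable.refl, if_true, if_false]
    exact hxy.symm

theorem t_EXT : S_EXT := by
  intro F V _ G hG
  classical
  obtain ⟨G', hGG', hmax⟩ := Set.Finite.exists_le_maximal
    (s := {G' : SimpleGraph V | Free F G'}) (Set.toFinite _) hG
  refine ⟨G', hGG', hmax.1, fun u v hne hna hfree => hna ?_⟩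
  have h1 : G' ≤ G' ⊔ SimpleGraph.edge u v := le_sup_left
  have h2 := hmax.2 hfree h1
  apply h2
  rw [SimpleGraph.sup_adj, SimpleGraph.edge_adj]
  right
  exact ⟨by simp, hne⟩

theorem t_TRF : S_TRF := by
  intro F V _ G hG
  classical
  let e : V ≃ Fin (Fintype.card V) := Fintype.equivFin V
  let G' : SimpleGraph (Fin (Fintype.card V)) := G.map e.toEmbedding
  have hiso : ∀ u v, G'.Adj (e u) (e v) ↔ G.Adj u v := fun u v =>
    SimpleGraph.map_adj_apply (f := e.toEmbedding)
  have hiso' : ∀ u v, G'.Adj u v ↔ G.Adj (e.symm u) (e.symm v) := by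
    intro u v
    rw [← hiso]; simp
  refine ⟨G', ⟨hG.1.of_emb e.symm e.symm.injective (fun u v h => (hiso' u v).1 h), ?_⟩, ?_⟩
  · intro u v hne hna hfree
    refine hG.2 (e.symm u) (e.symm v) (fun h => hne (e.symm.injective h))
      (fun h => hna ((hiso' u v).2 h)) (hfree.of_emb e e.injective ?_)
    intro x y hxy
    rcases adj_sup_edge hxy with h | ⟨rfl, rfl⟩ | ⟨rfl, rfl⟩
    · exact Or.inl ((hiso x y).2 h)
    · rw [SimpleGraph.sup_adj, SimpleGraph.edge_adj]
      right; simp [hne]
    · rw [SimpleGraph.sup_adj, SimpleGraph.edge_adj]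
      right; simp [hne.symm]
  · have : G'.edgeSet = (e.toEmbedding.sym2Map) '' G.edgeSet := by
      exact SimpleGraph.edgeSet_map _ _
    rw [this]
    exact Set.ncard_image_of_injective _ (e.toEmbedding.sym2Map).injective

theorem t_CLQ : S_CLQ := by
  intro F ⟨H, hH⟩
  refine ⟨H.1, fun V G hG S hS => ?_⟩
  by_contra hcon
  push Not at hcon
  obtain ⟨f⟩ : Nonempty (Fin H.1 ↪ S) := by
    apply Function.Embedding.nonempty_of_card_le
    simpa using hcon.le
  refine hG H hH (minor_sub (fun i => (f i : V))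
    (fun i j h => f.injective (Subtype.ext h)) ?_)
  intro u v huv
  exact hS (f u).2 (f v).2 (fun h => huv.ne (f.injective (Subtype.ext h)))

end Run7.h834.GM
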