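import Pool.Agent.Run7.h834.GM.Iface

/-! Basic tools of project GM (minor_trans and minor_sub copied from the starting tree, R34). -/

set_option autoImplicit false

namespace Run7.h834.GM

open SimpleGraph Filter Topology
open Pool.Agent.TH507.Host

/-- the minor relation is transitive -/
lemma minor_trans {V W R : Type} {G : SimpleGraph V} {H : SimpleGraph W} {F : SimpleGraph R}
    (h1 : IsMinor F H) (h2 : IsMinor H G) : IsMinor F G := by
  classical
  obtain ⟨A, hA1, hA2, hA3⟩ := h1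
  obtain ⟨B, hB1, hB2, hB3⟩ := h2
  let D : R → Set V := fun x => {v | ∃ y ∈ A x, v ∈ B y}
  refine ⟨D, ?_, ?_, ?_⟩
  · intro x
    have hin : ∀ y ∈ A x, ∀ v ∈ B y, v ∈ D x := fun y hy v hv => ⟨y, hy, hv⟩
    -- inside one branch set
    have hr1 : ∀ y (hy : y ∈ A x) (u v : V) (hu : u ∈ B y) (hv : v ∈ B y),
        (G.induce (D x)).Reachable ⟨u, hin y hy u hu⟩ ⟨v, hin y hy v hv⟩ := by
      intro y hy u v hu hv
      let φ : G.induce (B y) →g G.induce (D x) :=
        { toFun := fun z => ⟨z.1, hin y hy z.1 z.2⟩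
          map_rel' := fun {a b} hab => hab }
      exact ((hB1 y).preconnected ⟨u, hu⟩ ⟨v, hv⟩).map φ
    have hr2 : ∀ y y' : A x, (H.induce (A x)).Reachable y y' →
        ∀ (u v : V) (hu : u ∈ B y) (hv : v ∈ B y'),
        (G.induce (D x)).Reachable ⟨u, hin y y.2 u hu⟩ ⟨v, hin y' y'.2 v hv⟩ := by
      rintro y y' ⟨w⟩
      induction w with
      | @nil a => intro u v hu hv; exact hr1 a a.2 u v hu hv
      | @cons a b c hab w ih =>
        intro u v hu hv
        obtain ⟨s, hs, t, ht, hst⟩ := hB3 a b hab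
        have h1 := hr1 a a.2 u s hu hs
        have h2 : (G.induce (D x)).Adj ⟨s, hin a a.2 s hs⟩ ⟨t, hin b b.2 t ht⟩ := hst
        exact (h1.trans h2.reachable).trans (ih t v ht hv)
    obtain ⟨y0⟩ := (hA1 x).nonempty
    obtain ⟨v0⟩ := (hB1 y0).nonempty
    rw [connected_iff_exists_forall_reachable]
    refine ⟨⟨v0.1, hin _ y0.2 _ v0.2⟩, ?_⟩
    rintro ⟨v, y, hy, hv⟩
    exact hr2 y0 ⟨y, hy⟩ ((hA1 x).preconnected _ _) v0.1 v v0.2 hv
  · intro x y hxy
    rw [Set.disjoint_left]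
    rintro v ⟨a, ha, hva⟩ ⟨b, hb, hvb⟩
    have hab : a ≠ b := by
      rintro rfl
      exact Set.disjoint_left.1 (hA2 x y hxy) ha hb
    exact Set.disjoint_left.1 (hB2 a b hab) hva hvb
  · intro x y hxy
    obtain ⟨a, ha, b, hb, hab⟩ := hA3 x y hxy
    obtain ⟨u, hu, v, hv, huv⟩ := hB3 a b hab
    exact ⟨u, ⟨a, ha, hu⟩, v, ⟨b, hb, hv⟩, huv⟩

/-- minors by deleting vertices and edges -/
lemma minor_sub {V V' : Type} {G : SimpleGraph V} {G' : SimpleGraph V'} (f : V' → V)
    (hf : Function.Injective f) (h : ∀ u v, G'.Adj u v → G.Adj (f u) (f v)) : IsMinor G' G :=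
  by
  refine ⟨fun v => {f v}, ?_, ?_, ?_⟩
  · intro v
    rw [connected_iff_exists_forall_reachable]
    refine ⟨⟨f v, rfl⟩, ?_⟩
    rintro ⟨w, rfl⟩
    exact Reachable.refl _
  · intro x y hxy
    exact Set.disjoint_singleton.2 (fun h' => hxy (hf h'))
  · intro x y hxy
    exact ⟨f x, rfl, f y, rfl, h _ _ hxy⟩

theorem Free.of_minor {F : Set Gr} {V V' : Type} {G : SimpleGraph V} {G' : SimpleGraph V'}
    (h : Free F G) (hm : IsMinor G' G) : Free F G' := fun H hH hm' =>
  h H hH (minor_trans hm' hm)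

theorem Free.of_emb {F : Set Gr} {V V' : Type} {G : SimpleGraph V} {G' : SimpleGraph V'}
    (h : Free F G) (f : V' → V) (hf : Function.Injective f)
    (h' : ∀ u v, G'.Adj u v → G.Adj (f u) (f v)) : Free F G' :=
  h.of_minor (minor_sub f hf h')

theorem adj_sup_edge {V : Type} {G : SimpleGraph V} {x y u v : V}
    (h : (G ⊔ SimpleGraph.edge x y).Adj u v) :
    G.Adj u v ∨ (u = x ∧ v = y) ∨ (u = y ∧ v = x) := by
  rw [SimpleGraph.sup_adj, SimpleGraph.edge_adj] at h
  rcases h with h | ⟨h, _⟩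
  · exact Or.inl h
  · tauto

end Run7.h834.GM
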