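import Pool.Agent.Run7.h834.GM.Iface

set_option autoImplicit false

namespace Run7.h834.GM

open SimpleGraph Filter Topology
open Pool.Agent.TH507.Host

theorem free_bot (F : Set Gr) (hF : Good F) (n : ℕ) : Free F (⊥ : SimpleGraph (Fin n)) := by
  intro H hH ⟨B, h1, h2, h3⟩
  obtain ⟨-, hg⟩ := hF
  have hne := (hg H hH).2
  obtain ⟨x, y, hxy⟩ : ∃ x y, H.2.Adj x y := by
    by_contra hcon
    push Not at hcon
    apply hne
    ext x y
    simp [hcon x y]
  obtain ⟨u, _, v, _, h⟩ := h3 x y hxy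
  exact h

theorem main (hMAD : S_MAD) (hCLQ : S_CLQ) (hEXT : S_EXT) (hTRF : S_TRF) (hCOPY : S_COPY)
    (hSUMF : S_SUMF) (hTOT : S_TOT) (hUNI : S_UNI) (hONE : S_ONE) (hLIM : S_LIM)
    (hFEK : S_FEK) : ∀ F : Set Gr, Good F → ∃ Lp Lm : ℝ,
      Tendsto (fun n : ℕ => (Mplus F n : ℝ) / n) atTop (𝓝 Lp) ∧
      Tendsto (fun n : ℕ => (Mminus F n : ℝ) / n) atTop (𝓝 Lm) ∧
      Tendsto (fun n : ℕ => gap F n / n) atTop (𝓝 (Lp - Lm)) := by
  intro F hF
  obtain ⟨K, hK⟩ := hMAD F hF.1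
  obtain ⟨h, hh⟩ := hCLQ F hF.1
  have hne : ∀ n, (EE F n).Nonempty := by
    intro n
    obtain ⟨G', _, hG'⟩ := hEXT F (Fin n) ⊥ (free_bot F hF n)
    exact ⟨_, G', hG', rfl⟩
  have hle : ∀ n, ∀ m ∈ EE F n, m ≤ K * n := by
    rintro n m ⟨G, hG, rfl⟩
    simpa using hK (Fin n) G hG.1
  have hbdd : ∀ n, BddAbove (EE F n) := fun n => ⟨K * n, fun m hm => hle n m hm⟩
  -- the upper part
  have hP : ∃ L : ℝ, Tendsto (fun n : ℕ => (Mplus F n : ℝ) / n) atTop (𝓝 L) := by
    apply hFEK (Mplus F) K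
    · intro n
      exact csSup_le (hne n) (hle n)
    · intro m n
      obtain ⟨G₁, hG₁, e₁⟩ := Nat.sSup_mem (hne m) (hbdd m)
      obtain ⟨G₂, hG₂, e₂⟩ := Nat.sSup_mem (hne n) (hbdd n)
      obtain ⟨G, hG, e⟩ := hSUMF F hF m n G₁ G₂ hG₁.1 hG₂.1
      obtain ⟨G', hGG', hG'⟩ := hEXT F _ G hG
      have h1 : G'.edgeSet.ncard ≤ Mplus F (m + n) := le_csSup (hbdd _) ⟨G', hG', rfl⟩
      have h2 : G.edgeSet.ncard ≤ G'.edgeSet.ncard :=
        Set.ncard_le_ncard (SimpleGraph.edgeSet_mono hGG') (Set.toFinite _)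
      have e₁' : G₁.edgeSet.ncard = Mplus F m := e₁
      have e₂' : G₂.edgeSet.ncard = Mplus F n := e₂
      omega
  -- the lower part
  have hM : ∃ L : ℝ, Tendsto (fun n : ℕ => (Mminus F n : ℝ) / n) atTop (𝓝 L) := by
    apply hLIM (Mminus F) h
    · intro n
      obtain ⟨G, hG, e⟩ := Nat.sInf_mem (hne n)
      obtain ⟨G', hG', h1⟩ := hONE F h hF hh n G hG
      have h2 : Mminus F (n + 1) ≤ G'.edgeSet.ncard := Nat.sInf_le ⟨G', hG', rfl⟩
      have e' : G.edgeSet.ncard = Mminus F n := e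
      omega
    · intro ε hε
      set B : ℕ := h * h * K with hB
      obtain ⟨s, hs⟩ := exists_nat_gt (2 * (B : ℝ) / ε + 1)
      have hs0 : (0 : ℝ) < s := by
        have : (0 : ℝ) ≤ 2 * (B : ℝ) / ε := by positivity
        linarith
      have hsB : (B : ℝ) / s ≤ ε / 2 := by
        rw [div_le_iff₀ hs0]
        have h1 : 2 * (B : ℝ) / ε < s := by linarith
        rw [div_lt_iff₀ hε] at h1
        linarith
      obtain ⟨T, hT⟩ := hUNI s
      obtain ⟨n1, hn1⟩ := exists_nat_gt (2 * ((T : ℝ) * B) / ε)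
      refine ⟨n1, fun n hn k hk => ?_⟩
      obtain ⟨G, hG, e⟩ := Nat.sInf_mem (hne n)
      obtain ⟨Gs, hGGs, hGs⟩ := hEXT F (Fin n × Fin k) (cop G k) (hCOPY F hF _ G k hG.1)
      have h1 := hTOT F K h hK hh (Fin n) G k Gs hG hGGs hGs.1
      obtain ⟨G', hG', e'⟩ := hTRF F (Fin n × Fin k) Gs hGs
      have hc : Fintype.card (Fin n × Fin k) = k * n := by
        rw [Fintype.card_prod, Fintype.card_fin, Fintype.card_fin, mul_comm]
      have h2 : Mminus F (k * n) ≤ G'.edgeSet.ncard := by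
        rw [← hc]
        exact Nat.sInf_le ⟨G', hG', rfl⟩
      have e0 : G.edgeSet.ncard = Mminus F n := e
      have h3 := hT (Fin n) G
      rw [Fintype.card_fin] at h3
      -- real form
      have h4 : Mminus F (k * n) ≤ k * Mminus F n + uniq G * (B * k) := by
        rw [← e0]
        calc Mminus F (k * n) ≤ G'.edgeSet.ncard := h2
          _ = Gs.edgeSet.ncard := e'
          _ ≤ _ := by rw [hB]; exact h1
      have h4r : (Mminus F (k * n) : ℝ) ≤ k * Mminus F n + uniq G * (B * k) := by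
        exact_mod_cast h4
      have h3r : (s : ℝ) * uniq G ≤ s * T + n := by exact_mod_cast h3
      have h5 : (uniq G : ℝ) ≤ T + n / s := by
        have : (uniq G : ℝ) ≤ (s * T + n) / s := by
          rw [le_div_iff₀ hs0]; linarith
        calc (uniq G : ℝ) ≤ (s * T + n) / s := this
          _ = T + n / s := by field_simp
      have h6 : (T : ℝ) * B ≤ ε / 2 * n := by
        rw [div_lt_iff₀ hε] at hn1
        have : (n1 : ℝ) ≤ n := by exact_mod_cast hn
        nlinarith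
      have h7 : (uniq G : ℝ) * B ≤ ε * n := by
        calc (uniq G : ℝ) * B ≤ (T + n / s) * B :=
              mul_le_mul_of_nonneg_right h5 (Nat.cast_nonneg _)
          _ = T * B + (B / s) * n := by ring
          _ ≤ ε / 2 * n + ε / 2 * n := by
              have := mul_le_mul_of_nonneg_right hsB (Nat.cast_nonneg (α := ℝ) n)
              linarith
          _ = ε * n := by ring
      have h8 : (uniq G : ℝ) * (B * k) ≤ ε * k * n := by
        calc (uniq G : ℝ) * (B * k) = (uniq G * B) * k := by ring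
          _ ≤ (ε * n) * k := mul_le_mul_of_nonneg_right h7 (Nat.cast_nonneg _)
          _ = ε * k * n := by ring
      linarith
  obtain ⟨L₁, h1⟩ := hP
  obtain ⟨L₂, h2⟩ := hM
  refine ⟨L₁, L₂, h1, h2, ?_⟩
  have h3 := h1.sub h2
  refine h3.congr fun n => ?_
  unfold gap
  rw [sub_div]

end Run7.h834.GM
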